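import Pool.Agent.R838.NB.Twf
import Pool.Agent.R838.TW.Part
import Pool.Agent.W22.TC.Dir

set_option autoImplicit false

/-!
# Newforms with nebentypus and their twists by primitive Dirichlet characters: completed L-functions
-/

namespace Pool.Agent.R838.NB

open UpperHalfPlane hiding I
open MatrixGroups CongruenceSubgroup Filter Topology Complex
open Pool.Agent.Y671.GL
open Pool.Agent.Y771.NF (p_sel)
open Pool.Agent.R838.TW
open scoped ComplexConjugate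

variable {N : ℕ} [NeZero N] {k : ℕ} {ψ : DirichletCharacter ℂ N}
  {f : CuspForm (Gamma1 N : Subgroup (GL (Fin 2) ℝ)) (k : ℤ)} {η : ℂ}
variable {q : ℕ} [NeZero q] {χ : DirichletCharacter ℂ q}

theorem exists_LC (hk : 1 ≤ k) (hf : W388.IsNewfC N k ψ f η) (hχ : χ.IsPrimitive) (hco : Nat.Coprime q N) :
    ∃ F : ℂ → ℂ, W388.FE2 k N q F ∧ IsL (lxc f χ) F := by
  have hsum : ∀ (q : ℕ) [NeZero q] (χ : DirichletCharacter ℂ q) (s : ℂ), 1 < s.re →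
      Summable (fun n : ℕ => ‖χ (n : ZMod q) * W388.lamC f n * (n : ℂ) ^ (-s)‖) := by
    intro q _ χ s hs
    have h0 : Frm k N (fun p => ψ ((p : ℕ) : ZMod N)) (lmc f) := frm_newfC hk hf
    obtain ⟨-, -, -, h4⟩ := Pool.Agent.Y771.GL.mf k N (fun p => ψ ((p : ℕ) : ZMod N)) (lmc f) h0
    refine (h4 s.re hs).1.of_nonneg_of_le (fun n => norm_nonneg _) fun n => ?_
    rcases Nat.eq_zero_or_pos n with rfl | hn
    · rw [W388.lamC_zero]
      simp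
      positivity
    · rw [norm_mul, norm_mul, Complex.norm_natCast_cpow_of_pos hn, neg_re]
      have h6 := χ.norm_le_one (n : ZMod q)
      have h7 : ‖lmc f n‖ = ‖W388.lamC f n‖ := rfl
      rw [h7]
      have h8 : (0 : ℝ) ≤ (n : ℝ) ^ (-s.re) := by positivity
      have h9 := norm_nonneg (W388.lamC f n)
      calc ‖χ (n : ZMod q)‖ * ‖W388.lamC f n‖ * (n : ℝ) ^ (-s.re) ≤
          1 * ‖W388.lamC f n‖ * (n : ℝ) ^ (-s.re) := by gcongr
        _ = _ := by ring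
  have hk' : (1 : ℤ) ≤ (k : ℤ) := by exact_mod_cast hk
  obtain ⟨F, hF, hs⟩ := W388.exists_twistC Pool.Agent.W440.TC.t_twistC Pool.Agent.W108.TW.t_mellin
    hk' hf hsum q χ hχ hco
  exact ⟨F, hF, hF.diff, hs⟩

/-- **Twists of newforms.** -/
theorem pl_twc (hk : 1 ≤ k) (hf : W388.IsNewfC N k ψ f η) (hχ : χ.IsPrimitive) (hco : Nat.Coprime q N) :
    ∃ (X F : ℂ → ℂ) (v : ℂ), PL 1 X ∧ v ≠ 0 ∧ IsL (lxc f χ) F ∧
      ∀ s : ℂ, 1 < s.re → X (s - 1 / 2) = v * (W388.GG k N q s * F s) := by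
  obtain ⟨F, hFE, hL⟩ := exists_LC hk hf hχ hco
  have hfm := frm_twc hk hf hχ hco
  have hN1 : (1 : ℝ) ≤ N := by exact_mod_cast Nat.one_le_iff_ne_zero.2 (NeZero.ne N)
  have hq1 : (1 : ℝ) ≤ q := by exact_mod_cast Nat.one_le_iff_ne_zero.2 (NeZero.ne q)
  obtain ⟨u, v, X, hD, hv, hX⟩ := ldata_of hk hN1 hq1 hFE hfm hL
  have hlfn := lfn_of hk hN1 hq1 hFE hfm hL
  haveI : NeZero (N * q ^ 2) := ⟨Nat.mul_ne_zero (NeZero.ne N) (pow_ne_zero _ (NeZero.ne q))⟩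
  have hsq : Real.sqrt ((N * q ^ 2 : ℕ) : ℝ) = Real.sqrt N * q := by
    push_cast
    rw [Real.sqrt_mul (by linarith), Real.sqrt_sq (by linarith)]
  rw [← hsq] at hD
  refine ⟨X, F, v, pl_of hk hfm hL hD hlfn, hv, hL, fun s hs => ?_⟩
  have h1 := hX (s - 1 / 2) (by simp; linarith)
  rw [add_sub_cancel] at h1
  exact h1

theorem p_dirG : W388.StDirG := Pool.Agent.W22.TC.t_dirG Pool.Agent.W482.TW.t_id1 p_sel

/-- the Euler product of a twist -/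
theorem euler_twc (hk : 1 ≤ k) (hf : W388.IsNewfC N k ψ f η) {F : ℂ → ℂ} (hF : IsL (lxc f χ) F) {s : ℂ}
    (hs : 1 < s.re) :
    HasProd (fun p : Nat.Primes =>
        (1 - χ ((p : ℕ) : ZMod q) * W388.lamC f p * ((p : ℕ) : ℂ) ^ (-s) +
          χ ((p : ℕ) : ZMod q) ^ 2 * ψ ((p : ℕ) : ZMod N) * ((p : ℕ) : ℂ) ^ (-2 * s))⁻¹) (F s) := by
  have hN : 0 < N := Nat.pos_of_ne_zero (NeZero.ne N)
  obtain ⟨θ, lam, hθ, hθ1, hθ2, hH, hR, hlam⟩ := red_lmc hk hf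
  obtain ⟨A, -, -, -, h⟩ := p_dirG N hN lam hH hR
  have hterm : ∀ n : ℕ, lxc f χ n = (χ (n : ZMod q) * θ n) * (lam n : ℂ) := by
    intro n
    unfold lxc
    rw [hlam n]; ring
  have h1 := (h _ (W388.cmul_twist hθ χ) F (fun s hs => by
    rw [hF.ser s hs]
    exact tsum_congr fun n => by rw [hterm])).2.2.2.2.2 s hs
  refine h1.congr_fun fun p => ?_
  have hp := p.2
  congr 1
  rw [← hterm]
  congr 1
  by_cases hpN : (p : ℕ) ∣ N
  · have : ψ ((p : ℕ) : ZMod N) = 0 := by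
      apply MulChar.map_nonunit
      rw [ZMod.isUnit_iff_coprime]
      intro hc
      exact ((Nat.Prime.coprime_iff_not_dvd hp).mp hc) hpN
    rw [if_pos hpN, this]
    ring
  · rw [if_neg hpN, mul_pow, hθ2 p hp.ne_zero ((Nat.Prime.coprime_iff_not_dvd hp).mpr hpN)]

/-- **A twist of a newform with nebentypus as a part of the cohomology of degree `i = k - 1 + 2 r`.** -/
theorem pl_partc (hk : 1 ≤ k) (hf : W388.IsNewfC N k ψ f η) (hχ : χ.IsPrimitive) (hco : Nat.Coprime q N)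
    {i r : ℕ} (hi : k + 2 * r = i + 1) :
    ∃ (X : ℂ → ℂ) (v : ℂ), PL 1 X ∧ v ≠ 0 ∧ ∀ s : ℂ, (i : ℝ) / 2 + 1 < s.re → ∃ L : ℂ,
      HasProd (fun p : Nat.Primes =>
        (1 - χ ((p : ℕ) : ZMod q) * (qExpansion 1 f).coeff p * ((p : ℕ) : ℂ) ^ ((r : ℂ) - s) +
          χ ((p : ℕ) : ZMod q) ^ 2 * ψ ((p : ℕ) : ZMod N) * ((p : ℕ) : ℂ) ^ ((i : ℂ) - 2 * s))⁻¹) L ∧
      X (s - ((((i : ℝ) + 1) / 2 : ℝ) : ℂ)) =
        v * (((Real.sqrt N * q / (2 * Real.pi) : ℝ) : ℂ) ^ s * Complex.Gamma (s - r) * L) := by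
  have hpi := Real.pi_pos
  obtain ⟨X, F, v, hP, hv, hL, hX⟩ := pl_twc hk hf hχ hco
  have hN0 : (0 : ℝ) < N := by exact_mod_cast Nat.pos_of_ne_zero (NeZero.ne N)
  have hq0 : (0 : ℝ) < q := by exact_mod_cast Nat.pos_of_ne_zero (NeZero.ne q)
  have hsq : 0 < Real.sqrt N := Real.sqrt_pos.2 hN0
  obtain ⟨c, hc⟩ : ∃ c : ℝ, c = Real.sqrt N * q / (2 * Real.pi) := ⟨_, rfl⟩
  have hcp : 0 < c := by rw [hc]; positivity
  have hcc : (c : ℂ) ≠ 0 := by exact_mod_cast hcp.ne'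
  have hir : (k : ℂ) + 2 * r = i + 1 := by exact_mod_cast hi
  have hik : (k : ℂ) = i + 1 - 2 * r := by linear_combination hir
  refine ⟨X, v * (c : ℂ) ^ (-((i : ℂ) / 2)), hP, ?_, fun s hs => ?_⟩
  · refine mul_ne_zero hv ?_
    rw [Ne, Complex.cpow_eq_zero_iff]
    exact fun h => hcc h.1
  have hs' : 1 < (s - (i : ℂ) / 2).re := by
    have e : (s - (i : ℂ) / 2).re = s.re - (i : ℝ) / 2 := by
      rw [Complex.sub_re]
      congr 1
      rw [show ((i : ℂ) / 2) = (((i : ℝ) / 2 : ℝ) : ℂ) by push_cast; ring, Complex.ofReal_re]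
    rw [e]
    linarith
  refine ⟨F (s - (i : ℂ) / 2), ?_, ?_⟩
  · have h1 := euler_twc hk hf hL hs'
    convert h1 using 2 with p
    have hp := p.2
    have hp0 : (0 : ℝ) < (p : ℕ) := by exact_mod_cast hp.pos
    have hpc : (((p : ℕ)) : ℂ) ≠ 0 := by exact_mod_cast hp.ne_zero
    have e1 : W388.lamC f p * ((p : ℕ) : ℂ) ^ (-(s - (i : ℂ) / 2)) =
        (qExpansion 1 f).coeff (p : ℕ) * ((p : ℕ) : ℂ) ^ ((r : ℂ) - s) := by
      unfold W388.lamC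
      rw [Complex.ofReal_cpow hp0.le, Complex.ofReal_natCast]
      have e2 : ((((((k : ℕ) : ℤ) : ℝ) - 1) / 2 : ℝ) : ℂ) = ((k : ℂ) - 1) / 2 := by
        push_cast
        ring
      rw [e2, div_mul_eq_mul_div, mul_div_assoc, ← Complex.cpow_sub _ _ hpc]
      congr 2
      rw [hik]
      ring
    have e3 : ((p : ℕ) : ℂ) ^ ((i : ℂ) - 2 * s) = ((p : ℕ) : ℂ) ^ (-2 * (s - (i : ℂ) / 2)) := by
      congr 1
      ring
    rw [e3, mul_assoc (χ ((p : ℕ) : ZMod q)) (W388.lamC f p), e1, ← mul_assoc]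
  · have h1 := hX (s - (i : ℂ) / 2) hs'
    have e1 : s - (i : ℂ) / 2 - 1 / 2 = s - ((((i : ℝ) + 1) / 2 : ℝ) : ℂ) := by
      push_cast
      ring
    rw [e1] at h1
    rw [h1]
    unfold W388.GG
    rw [← hc]
    have e2 : s - (i : ℂ) / 2 + ((((k : ℕ) : ℤ) : ℂ) - 1) / 2 = s - r := by
      push_cast
      rw [hik]
      ring
    rw [e2, show (s - (i : ℂ) / 2 : ℂ) = -((i : ℂ) / 2) + s by ring, Complex.cpow_add _ _ hcc]
    ring

section new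

theorem one_val (n : ℕ) : (1 : DirichletCharacter ℂ 1) (n : ZMod 1) = 1 :=
  MulChar.one_apply (isUnit_of_subsingleton _)

/-- **Newforms.** -/
theorem pl_newf (hk : 1 ≤ k) (hf : W388.IsNewfC N k ψ f η) :
    ∃ (X F : ℂ → ℂ) (v : ℂ), PL 1 X ∧ v ≠ 0 ∧ IsL (lmc f) F ∧
      ∀ s : ℂ, 1 < s.re → X (s - 1 / 2) = v * (W388.GG k N 1 s * F s) := by
  obtain ⟨X, F, v, h1, h2, h3, h4⟩ := pl_twc (q := 1) (χ := 1) hk hf DirichletCharacter.isPrimitive_one_level_one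
    (Nat.coprime_one_left N)
  refine ⟨X, F, v, h1, h2, ⟨h3.diff, fun s hs => ?_⟩, fun s hs => ?_⟩
  · rw [h3.ser s hs]
    refine tsum_congr fun n => ?_
    unfold lxc
    rw [one_val, one_mul]
  · rw [h4 s hs, Nat.cast_one]

/-- **A newform with nebentypus as a part of the cohomology of degree `i = k - 1 + 2 r`.** -/
theorem pl_new (hk : 1 ≤ k) (hf : W388.IsNewfC N k ψ f η) {i r : ℕ} (hi : k + 2 * r = i + 1) :
    ∃ (X : ℂ → ℂ) (v : ℂ), PL 1 X ∧ v ≠ 0 ∧ ∀ s : ℂ, (i : ℝ) / 2 + 1 < s.re → ∃ L : ℂ,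
      HasProd (fun p : Nat.Primes =>
        (1 - (qExpansion 1 f).coeff p * ((p : ℕ) : ℂ) ^ ((r : ℂ) - s) +
          ψ ((p : ℕ) : ZMod N) * ((p : ℕ) : ℂ) ^ ((i : ℂ) - 2 * s))⁻¹) L ∧
      X (s - ((((i : ℝ) + 1) / 2 : ℝ) : ℂ)) =
        v * (((Real.sqrt N / (2 * Real.pi) : ℝ) : ℂ) ^ s * Complex.Gamma (s - r) * L) := by
  obtain ⟨X, v, h1, h2, h3⟩ := pl_partc (q := 1) (χ := 1) hk hf DirichletCharacter.isPrimitive_one_level_one
    (Nat.coprime_one_left N) hi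
  refine ⟨X, v, h1, h2, fun s hs => ?_⟩
  obtain ⟨L, h4, h5⟩ := h3 s hs
  refine ⟨L, ?_, ?_⟩
  · refine h4.congr_fun fun p => ?_
    rw [one_val, one_mul, one_pow, one_mul]
  · rw [h5, Nat.cast_one, mul_one]

end new

end Pool.Agent.R838.NB
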