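import Pool.Agent.R838.NB.Ram
import Pool.Agent.Y771.NF.Inst
import Pool.Agent.W388.TC.GoodC
import Pool.Agent.W438.TC.RSC
import Pool.Agent.W22.TC.Cusp
import Pool.Agent.W22.TC.Pars

set_option autoImplicit false

/-!
# Holomorphic newforms with nebentypus as instances of `Frm`
-/

namespace Pool.Agent.R838.NB

open UpperHalfPlane hiding I
open MatrixGroups CongruenceSubgroup Filter Topology Complex
open Pool.Agent.Y671.GL
open Pool.Agent.Y771.NF (im_of_re im_val re_dual p_sel rs_of_sel)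
open scoped ComplexConjugate

variable {N : ℕ} [NeZero N] {k : ℕ} {ψ : DirichletCharacter ℂ N}
  {f : CuspForm (Gamma1 N : Subgroup (GL (Fin 2) ℝ)) (k : ℤ)} {η : ℂ}

/-- normalised coefficients -/
noncomputable def lmc {N k : ℕ} (f : CuspForm (Gamma1 N : Subgroup (GL (Fin 2) ℝ)) (k : ℤ)) (n : ℕ) : ℂ :=
  W388.lamC f n

theorem aa_lmc (f : CuspForm (Gamma1 N : Subgroup (GL (Fin 2) ℝ)) (k : ℤ)) (n : ℕ) :
    aa k (lmc f) n = (qExpansion 1 f).coeff n := by
  unfold aa lmc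
  rcases Nat.eq_zero_or_pos n with rfl | hn
  · rw [W388.lamC_zero, W388.coeff_zeroC, zero_mul]
  · have hn0 : (0 : ℝ) < n := by exact_mod_cast hn
    unfold W388.lamC
    rw [Int.cast_natCast, div_mul_cancel₀]
    exact_mod_cast (Real.rpow_pos_of_pos hn0 _).ne'

theorem hasSum_fc (f : CuspForm (Gamma1 N : Subgroup (GL (Fin 2) ℝ)) (k : ℤ)) {w : ℂ} (hw : 0 < w.im) :
    HasSum (fun n : ℕ => (qExpansion 1 f).coeff n * Complex.exp (2 * Real.pi * Complex.I * n * w))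
      (f (ofComplex w)) := by
  have h1 : (1 : ℝ) ∈ (Gamma1 N : Subgroup (GL (Fin 2) ℝ)).strictPeriods := by
    rw [strictPeriods_Gamma1]
    exact AddSubgroup.mem_zmultiples 1
  have h := ModularForm.hasSum_qExpansion (f := f) one_pos h1 (ofComplex w)
  convert h using 2 with n
  change _ = (qExpansion 1 f).coeff n * _
  congr 1
  rw [ofComplex_apply_of_im_pos hw]
  unfold Function.Periodic.qParam
  rw [← Complex.exp_nat_mul]
  congr 1
  push_cast
  ring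

/-- `Φ(z) = f(iz/2π)` -/
theorem Ph_lmc (f : CuspForm (Gamma1 N : Subgroup (GL (Fin 2) ℝ)) (k : ℤ)) {z : ℂ} (hz : 0 < z.re) :
    Ph k (lmc f) z = f (ofComplex (I * z / (2 * Real.pi))) := by
  unfold Ph
  rw [← (hasSum_fc f (im_of_re hz)).tsum_eq]
  refine tsum_congr fun n => ?_
  rw [aa_lmc]
  congr 2
  have : (Real.pi : ℂ) ≠ 0 := by exact_mod_cast Real.pi_ne_zero
  field_simp
  rw [Complex.I_sq]
  ring

theorem bd_lmc (f : CuspForm (Gamma1 N : Subgroup (GL (Fin 2) ℝ)) (k : ℤ)) :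
    ∃ C : ℝ, ∀ z : ℂ, 0 < z.re → ‖Ph k (lmc f) z‖ ≤ C * z.re ^ (-((k : ℝ) / 2)) := by
  obtain ⟨C, hC⟩ := CuspFormClass.exists_bound (Γ := (Gamma1 N : Subgroup (GL (Fin 2) ℝ))) f
  refine ⟨C * (2 * Real.pi) ^ ((k : ℝ) / 2), fun z hz => ?_⟩
  rw [Ph_lmc f hz]
  have h1 := hC (ofComplex (I * z / (2 * Real.pi)))
  have h2 : (ofComplex (I * z / (2 * Real.pi))).im = z.re / (2 * Real.pi) := by
    rw [ofComplex_apply_of_im_pos (im_of_re hz)]
    exact im_val z
  rw [h2] at h1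
  refine h1.trans (le_of_eq ?_)
  have hpi := Real.pi_pos
  rw [Int.cast_natCast, Real.div_rpow hz.le (by positivity), Real.rpow_neg hz.le]
  have h3 : 0 < z.re ^ ((k : ℝ) / 2) := by positivity
  have h4 : 0 < (2 * Real.pi) ^ ((k : ℝ) / 2) := by positivity
  field_simp

theorem f_gammaC (hf : W388.IsNewfC N k ψ f η) {a b c d : ℤ} (hdet : a * d - b * c = 1) (hc : (N : ℤ) ∣ c)
    {w : ℂ} (hw : 0 < w.im) :
    f (ofComplex ((a * w + b) / (c * w + d))) =
      ψ ((d : ℤ) : ZMod N) * ((c : ℂ) * w + d) ^ (k : ℤ) * f (ofComplex w) := by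
  let γ : SL(2, ℤ) := ⟨!![a, b; c, d], by rw [Matrix.det_fin_two_of]; exact hdet⟩
  have hγ : γ ∈ Gamma0 N := by
    rw [Gamma0_mem]
    change ((c : ℤ) : ZMod N) = 0
    rwa [ZMod.intCast_zmod_eq_zero_iff_dvd]
  let z : ℍ := ⟨w, hw⟩
  have h1 := hf.neb γ hγ z
  have hz : ofComplex w = z := ofComplex_apply_of_im_pos hw
  have e00 : γ 0 0 = a := rfl
  have e01 : γ 0 1 = b := rfl
  have e10 : γ 1 0 = c := rfl
  have e11 : γ 1 1 = d := rfl
  have h2 : ((γ • z : ℍ) : ℂ) = (a * w + b) / (c * w + d) := by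
    rw [coe_specialLinearGroup_apply]
    have ez : (z : ℂ) = w := rfl
    rw [e00, e01, e10, e11, ez]
    simp only [algebraMap_int_eq, eq_intCast, Complex.ofReal_intCast]
  have h3 : ofComplex ((a * w + b) / (c * w + d)) = γ • z := by
    rw [← h2]
    exact ofComplex_apply _
  have h4 : denom (γ : GL (Fin 2) ℝ) z = c * w + d := by
    rw [ModularGroup.denom_apply]
    rfl
  rw [h3, h1, hz, h4, e11]

/-- the cusp factor -/
noncomputable def omN {N : ℕ} (ψ : DirichletCharacter ℂ N) (x : ZMod N) : ℂ := ψ⁻¹ x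

theorem om_unit {a b : ℤ} {q : ℕ} (hN : N ∣ q) (hab : (q : ℤ) ∣ a * b - 1) :
    omN ψ ((a : ℤ) : ZMod N) * ψ ((a : ℤ) : ZMod N) = 1 := by
  have h1 : (N : ℤ) ∣ a * b - 1 := dvd_trans (by exact_mod_cast hN) hab
  have h2 := (ZMod.intCast_zmod_eq_zero_iff_dvd (a * b - 1) N).2 h1
  have h3 : ((a : ℤ) : ZMod N) * ((b : ℤ) : ZMod N) = 1 := by
    push_cast at h2
    linear_combination h2
  unfold omN
  rw [← MulChar.mul_apply, inv_mul_cancel]
  exact MulChar.one_apply (IsUnit.of_mul_eq_one _ h3)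

theorem cusp_lmc (hf : W388.IsNewfC N k ψ f η) (q : ℕ) (a b : ℤ) (hq : 1 ≤ q) (hN : N ∣ q)
    (hab : (q : ℤ) ∣ a * b - 1) (z : ℂ) (hz : 0 < z.re) :
    Ph k (lmc f) (z + 2 * Real.pi * I * a / q) = omN ψ ((a : ℤ) : ZMod N) * (2 * Real.pi / (I * q * z)) ^ k *
        Ph k (lmc f) (4 * Real.pi ^ 2 / (q ^ 2 * z) - 2 * Real.pi * I * b / q) := by
  have hz0 : z ≠ 0 := by
    intro h; rw [h] at hz; simp at hz
  have hqC : (q : ℂ) ≠ 0 := by exact_mod_cast (by omega : q ≠ 0)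
  have hpi : (Real.pi : ℂ) ≠ 0 := by exact_mod_cast Real.pi_ne_zero
  have hom := om_unit (ψ := ψ) hN hab
  have hz1 : 0 < (z + 2 * Real.pi * I * a / q : ℂ).re := by
    have h2 : (2 * Real.pi * I * a / q : ℂ) = ((2 * Real.pi * a / q : ℝ) : ℂ) * I := by
      push_cast
      ring
    rw [h2, add_re, Complex.re_ofReal_mul, Complex.I_re, mul_zero, add_zero]
    exact hz
  rw [Ph_lmc f hz1, Ph_lmc f (re_dual hq hz b)]
  obtain ⟨g, hg⟩ := hab
  obtain ⟨w, hw⟩ : ∃ w : ℂ, w = I * (z + 2 * Real.pi * I * a / q) / (2 * Real.pi) := ⟨_, rfl⟩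
  have hwi : 0 < w.im := by rw [hw]; exact im_of_re hz1
  have h1 := f_gammaC hf (a := b) (b := g) (c := q) (d := a) (by linarith)
    (by exact_mod_cast hN) hwi
  have hI : I ^ 2 = -1 := Complex.I_sq
  have e1 : (((q : ℤ) : ℂ) * w + a) = q * (I * z / (2 * Real.pi)) := by
    rw [hw]
    push_cast
    field_simp
    linear_combination (2 * Real.pi * (a : ℂ)) * hI
  have hgC : (a : ℂ) * b - 1 = q * g := by exact_mod_cast hg
  have e2 : ((b : ℂ) * w + g) / (((q : ℤ) : ℂ) * w + a) =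
      I * (4 * Real.pi ^ 2 / (q ^ 2 * z) - 2 * Real.pi * I * b / q) / (2 * Real.pi) := by
    rw [e1, div_eq_iff (by
      apply mul_ne_zero hqC
      apply div_ne_zero (mul_ne_zero Complex.I_ne_zero hz0)
      exact mul_ne_zero two_ne_zero hpi)]
    rw [hw]
    field_simp
    linear_combination (-4 * Real.pi : ℂ) * hgC + (2 * b * I * z * q + 4 * Real.pi * a * b - 4 * Real.pi) * hI
  rw [e2, e1, hw] at h1
  rw [h1, zpow_natCast]
  generalize f (ofComplex (I * (z + 2 * Real.pi * I * a / q) / (2 * Real.pi))) = X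
  have e3 : (2 * Real.pi / (I * q * z) * (q * (I * z / (2 * Real.pi))) : ℂ) = 1 := by
    field_simp
  have e4 : (2 * Real.pi / (I * q * z) : ℂ) ^ k * (q * (I * z / (2 * Real.pi)) : ℂ) ^ k = 1 := by
    rw [← mul_pow, e3, one_pow]
  linear_combination (-X) * hom - (omN ψ ((a : ℤ) : ZMod N) * ψ ((a : ℤ) : ZMod N) * X) * e4

theorem pre_lmc (hk : 1 ≤ k) (hf : W388.IsNewfC N k ψ f η) : PreC k N (omN ψ) (lmc f) where
  k_pos := hk
  N_pos := Nat.pos_of_ne_zero (NeZero.ne N)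
  om_le := fun x => (ψ⁻¹).norm_le_one x
  zero := W388.lamC_zero f
  pol := by
    have hk' : (1 : ℤ) ≤ (k : ℤ) := by exact_mod_cast hk
    obtain ⟨C, hC⟩ := W388.coeff_boundC f hk'
    refine ⟨|C|, k, fun n => ?_⟩
    rw [aa_lmc]
    rcases Nat.eq_zero_or_pos n with rfl | hn
    · rw [W388.coeff_zeroC, norm_zero]
      positivity
    · have h1 := hC n hn
      have hx1 : (1 : ℝ) ≤ n := by exact_mod_cast hn
      refine h1.trans ?_
      have h2 : (n : ℝ) ^ (((k : ℤ) : ℝ) / 2) ≤ (n : ℝ) ^ k := by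
        rw [← Real.rpow_natCast]
        apply Real.rpow_le_rpow_of_exponent_le hx1
        have : (0 : ℝ) ≤ k := Nat.cast_nonneg k
        rw [Int.cast_natCast]
        linarith
      calc C * (n : ℝ) ^ (((k : ℤ) : ℝ) / 2) ≤ |C| * (n : ℝ) ^ (((k : ℤ) : ℝ) / 2) :=
            mul_le_mul_of_nonneg_right (le_abs_self C) (by positivity)
        _ ≤ _ := mul_le_mul_of_nonneg_left h2 (abs_nonneg C)
  bd := bd_lmc f
  cusp := fun q a b hq hN hab z hz => cusp_lmc hf q a b hq hN hab z hz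

theorem conj_Ph (lam : ℕ → ℂ) (z : ℂ) : conj (Ph k lam (conj z)) = Ph k (fun n => conj (lam n)) z := by
  unfold Ph
  rw [Complex.conj_tsum]
  refine tsum_congr fun n => ?_
  unfold aa
  rw [map_mul, map_mul, Complex.conj_ofReal, ← Complex.exp_conj, map_neg, map_mul, Complex.conj_conj,
    Complex.conj_natCast]

theorem fricke_lmc (hf : W388.IsNewfC N k ψ f η) (z : ℂ) (hz : 0 < z.re) :
    Ph k (lmc f) (4 * Real.pi ^ 2 / (N * z)) =
      η * ((Real.sqrt N : ℝ) * z / (2 * Real.pi)) ^ k * Ph k (fun n => conj (lmc f n)) z := by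
  have hz0 : z ≠ 0 := by
    intro h; rw [h] at hz; simp at hz
  have hN0 : (0 : ℝ) < N := by exact_mod_cast Nat.pos_of_ne_zero (NeZero.ne N)
  have hNC : (N : ℂ) ≠ 0 := by exact_mod_cast NeZero.ne N
  have hpi : (Real.pi : ℂ) ≠ 0 := by exact_mod_cast Real.pi_ne_zero
  have hpi0 := Real.pi_pos
  have hre : 0 < (4 * Real.pi ^ 2 / (N * z) : ℂ).re := by
    have h1 : (4 * Real.pi ^ 2 / (N * z) : ℂ) = ((4 * Real.pi ^ 2 / N : ℝ) : ℂ) * z⁻¹ := by
      push_cast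
      field_simp
    rw [h1, Complex.re_ofReal_mul, Complex.inv_re]
    have := Complex.normSq_pos.2 hz0
    positivity
  have hzc : 0 < (conj z).re := by rw [Complex.conj_re]; exact hz
  rw [← conj_Ph, Ph_lmc f hre, Ph_lmc f hzc]
  have h1 := hf.fricke (ofComplex (I * z / (2 * Real.pi)))
    (ofComplex (I * (4 * Real.pi ^ 2 / (N * z)) / (2 * Real.pi)))
    (ofComplex (I * conj z / (2 * Real.pi))) (by
      rw [ofComplex_apply_of_im_pos (im_of_re hz), ofComplex_apply_of_im_pos (im_of_re hre)]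
      show I * (4 * Real.pi ^ 2 / (N * z)) / (2 * Real.pi) * (N * (I * z / (2 * Real.pi))) = -1
      field_simp
      rw [Complex.I_sq]
      ring) (by
      rw [ofComplex_apply_of_im_pos (im_of_re hz), ofComplex_apply_of_im_pos (im_of_re hzc)]
      show I * conj z / (2 * Real.pi) = -conj (I * z / (2 * Real.pi))
      rw [map_div₀, map_mul, map_mul, Complex.conj_I, Complex.conj_ofReal, Complex.conj_ofNat]
      ring)
  rw [h1]
  congr 2
  rw [ofComplex_apply_of_im_pos (im_of_re hz), zpow_natCast]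
  congr 1
  show ((Real.sqrt N : ℝ) : ℂ) * (I * z / (2 * Real.pi)) / I = _
  field_simp

/-- the Rankin-Selberg limit -/
theorem p_rsC : W388.StRSC := Pool.Agent.W438.TC.t_rsC W54.TW.t_unfold W54.TW.t_eispairs
  Pool.Agent.W409.TW.t_eislim Pool.Agent.W749.TW.t_eisbd Pool.Agent.W22.TC.t_cuspC
  Pool.Agent.W22.TC.t_parsC

/-- reduction to a real sequence -/
theorem red_lmc (hk : 1 ≤ k) (hf : W388.IsNewfC N k ψ f η) :
    ∃ (θ : ℕ → ℂ) (r : ℕ → ℝ), W388.CMul θ ∧ (∀ n : ℕ, n ≠ 0 → ‖θ n‖ = 1) ∧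
      (∀ n : ℕ, n ≠ 0 → Nat.Coprime n N → θ n ^ 2 = ψ (n : ZMod N)) ∧ W388.HeckeSeq N r ∧ W388.RSLim r ∧
      ∀ n : ℕ, lmc f n = θ n * (r n : ℂ) := by
  obtain ⟨θ, lam, hθ, hθ1, hθ2, hH, hlam⟩ := W388.reduce ψ (W388.lamC f) (W388.lamC_zero f) (W388.lamC_one hf)
    (W388.lamC_mul hf) (W388.lamC_pow hf) (fun p hp hpN => W388.lamC_conj hf p
      ((Nat.Prime.coprime_iff_not_dvd hp).mpr hpN))
  have hk' : (1 : ℤ) ≤ (k : ℤ) := by exact_mod_cast hk
  have hR : W388.RSLim lam := by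
    have h1 := p_rsC N k hk' ψ f hf.neb hf.one
    have h2 : ∀ n : ℕ, ‖W388.lamC f n‖ ^ 2 = lam n ^ 2 := by
      intro n
      rw [hlam n]
      rcases eq_or_ne n 0 with rfl | hn
      · rw [hθ.zero, hH.zero]; simp
      · rw [norm_mul, hθ1 n hn, one_mul, Complex.norm_real, Real.norm_eq_abs, sq_abs]
    unfold W388.RSLim at h1 ⊢
    simp only [h2] at h1
    exact h1
  exact ⟨θ, lam, hθ, hθ1, hθ2, hH, hR, hlam⟩

/-- **Every newform with nebentypus is a form.** -/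
theorem frm_newfC (hk : 1 ≤ k) (hf : W388.IsNewfC N k ψ f η) :
    Frm k N (fun p => ψ ((p : ℕ) : ZMod N)) (lmc f) := by
  have hP := pre_lmc hk hf
  obtain ⟨θ, r, hθ, hθ1, hθ2, hH, hR, hlam⟩ := red_lmc hk hf
  have hS := (p_sel N (Nat.pos_of_ne_zero (NeZero.ne N)) r hH hR).1
  refine ⟨hP.k_pos, hP.N_pos, hP.zero, ?_, ?_, ?_, ?_, hP.ram, ?_, hP.bd, ?_, ?_⟩
  · exact W388.lamC_one hf
  · exact W388.lamC_mul hf
  · exact W388.lamC_pow hf
  · intro p
    exact ψ.norm_le_one _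
  · obtain ⟨C, hC⟩ := rs_of_sel hS
    refine ⟨C, fun x hx => le_trans (le_of_eq ?_) (hC x hx)⟩
    refine Finset.sum_congr rfl fun p hp => ?_
    rw [Finset.mem_filter] at hp
    rw [hlam p, norm_mul, hθ1 p hp.2.ne_zero, one_mul]
  · refine ⟨fun a => omN ψ ((a : ℤ) : ZMod N), fun a ha => ?_, fun q a b hq hN hab z hz => hP.cusp q a b hq hN hab z hz⟩
    have h2 : IsUnit ((a : ℤ) : ZMod N) := by
      obtain ⟨x, y, hxy⟩ := ha
      have h3 : ((x : ℤ) : ZMod N) * ((a : ℤ) : ZMod N) = 1 := by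
        have := congrArg (fun m : ℤ => (m : ZMod N)) hxy
        simpa using this
      exact IsUnit.of_mul_eq_one_right _ h3
    obtain ⟨v, hv⟩ := h2
    show ‖ψ⁻¹ ((a : ℤ) : ZMod N)‖ = 1
    rw [← hv]
    exact (ψ⁻¹).unit_norm_eq_one v
  · exact ⟨η, hf.sign, fun z hz => fricke_lmc hf z hz⟩

end Pool.Agent.R838.NB
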