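import Pool.Agent.R838.NB.Newf
import Pool.Agent.Y693.GL.Twf
import Pool.Agent.W440.TC.Twist

set_option autoImplicit false

/-!
# Twists of newforms with nebentypus by primitive Dirichlet characters are instances of `Frm`

A variant of `Pool.Agent.Y693.GL.Twf`.
-/

namespace Pool.Agent.R838.NB

open UpperHalfPlane hiding I
open MatrixGroups CongruenceSubgroup Filter Topology Complex ZMod
open Pool.Agent.Y671.GL
open Pool.Agent.Y771.NF (re_dual)
open Pool.Agent.Y693.GL (Ph_per Ph_res re_shift)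
open Pool.Agent.Y412.GLB
open Pool.Agent.W440.TW (inv_primitive gauss_ne_zero)
open Pool.Agent.W440.TC (t_twistC)
open scoped ComplexConjugate

variable {N : ℕ} [NeZero N] {k : ℕ} {ψ : DirichletCharacter ℂ N}
  {f : CuspForm (Gamma1 N : Subgroup (GL (Fin 2) ℝ)) (k : ℤ)} {η : ℂ}
variable {q : ℕ} [NeZero q] {χ : DirichletCharacter ℂ q}

/-- coefficients of the twist -/
noncomputable def lxc {N k : ℕ} (f : CuspForm (Gamma1 N : Subgroup (GL (Fin 2) ℝ)) (k : ℤ)) {q : ℕ}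
    (χ : DirichletCharacter ℂ q) (n : ℕ) : ℂ := χ (n : ZMod q) * lmc f n

/-- nebentypus of the twist -/
noncomputable def psxc {N : ℕ} (ψ : DirichletCharacter ℂ N) {q : ℕ} (χ : DirichletCharacter ℂ q) (p : ℕ) : ℂ :=
  ψ ((p : ℕ) : ZMod N) * χ (p : ZMod q) ^ 2

omit [NeZero N] [NeZero q] in
theorem pg_lxc (h : PG (aa k (lmc f))) : PG (aa k (lxc f χ)) := by
  refine h.mono fun n _ => ?_
  unfold aa lxc
  rw [norm_mul, norm_mul, norm_mul]
  have := χ.norm_le_one (n : ZMod q)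
  have h2 := norm_nonneg (lmc f n)
  gcongr
  nlinarith

omit [NeZero N] in
/-- additive expansion of the twist -/
theorem add_lxc (hχ : χ.IsPrimitive) (h : PG (aa k (lmc f))) {z : ℂ} (hz : 0 < z.re) :
    gaussSum χ⁻¹ (stdAddChar (N := q)) * Ph k (lxc f χ) z =
      ∑ u : ZMod q, χ⁻¹ u * Ph k (lmc f) (z - 2 * Real.pi * I * (u.val : ℤ) / q) := by
  have hq : (q : ℂ) ≠ 0 := Nat.cast_ne_zero.2 (NeZero.ne q)
  have hs : ∀ u : ZMod q, HasSum (fun n : ℕ => χ⁻¹ u * (aa k (lmc f) n *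
      cexp (-(n * (z - 2 * Real.pi * I * (u.val : ℤ) / q)))))
      (χ⁻¹ u * Ph k (lmc f) (z - 2 * Real.pi * I * (u.val : ℤ) / q)) := by
    intro u
    refine HasSum.mul_left _ ?_
    have hz' : 0 < (z - 2 * Real.pi * I * (u.val : ℤ) / q).re := by
      have e : (2 * Real.pi * I * ((u.val : ℤ) : ℂ) / q : ℂ) = ((2 * Real.pi * (u.val : ℤ) / q : ℝ) : ℂ) * I := by
        push_cast; ring
      rw [e, Complex.sub_re, Complex.re_ofReal_mul, Complex.I_re, mul_zero, sub_zero]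
      exact hz
    exact (h.summable_c hz').hasSum
  have hsum := hasSum_sum (s := Finset.univ) (fun (u : ZMod q) _ => hs u)
  rw [← hsum.tsum_eq]
  unfold Ph
  rw [← tsum_mul_left]
  refine tsum_congr fun n => ?_
  have hg := gaussSum_mulShift_of_isPrimitive (stdAddChar (N := q)) (inv_primitive χ hχ) (n : ZMod q)
  rw [inv_inv] at hg
  have e2 : gaussSum χ⁻¹ (AddChar.mulShift (stdAddChar (N := q)) (n : ZMod q)) =
      ∑ u : ZMod q, χ⁻¹ u * cexp (2 * Real.pi * I * (n * (u.val : ℤ)) / q) := by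
    unfold gaussSum
    refine Finset.sum_congr rfl fun u _ => ?_
    congr 1
    rw [AddChar.mulShift_apply]
    have e3 : (n : ZMod q) * u = ((n * (u.val : ℤ) : ℤ) : ZMod q) := by
      push_cast
      rw [ZMod.natCast_zmod_val]
    rw [e3, stdAddChar_coe]
    congr 1
    push_cast
    ring
  rw [e2] at hg
  have e4 : ∀ u : ZMod q, χ⁻¹ u * (aa k (lmc f) n * cexp (-(n * (z - 2 * Real.pi * I * (u.val : ℤ) / q)))) =
      (aa k (lmc f) n * cexp (-(n * z))) * (χ⁻¹ u * cexp (2 * Real.pi * I * (n * (u.val : ℤ)) / q)) := by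
    intro u
    have e5 : -((n : ℂ) * (z - 2 * Real.pi * I * (u.val : ℤ) / q)) =
        -(n * z) + 2 * Real.pi * I * (n * (u.val : ℤ)) / q := by
      field_simp
      ring
    rw [e5, Complex.exp_add]
    ring
  simp_rw [e4]
  rw [← Finset.mul_sum, hg]
  unfold aa lxc
  ring

/-- transformation at the cusps -/
theorem cusp_lxc (hf : W388.IsNewfC N k ψ f η) (hχ : χ.IsPrimitive) (h : PG (aa k (lmc f))) (Q : ℕ) (a b : ℤ)
    (hQ : 1 ≤ Q) (hN : N * q ^ 2 ∣ Q) (hab : (Q : ℤ) ∣ a * b - 1) (z : ℂ) (hz : 0 < z.re) :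
    Ph k (lxc f χ) (z + 2 * Real.pi * I * a / Q) =
      (omN ψ ((a : ℤ) : ZMod N) * χ⁻¹ ((a ^ 2 : ℤ) : ZMod q)) * (2 * Real.pi / (I * Q * z)) ^ k *
        Ph k (lxc f χ) (4 * Real.pi ^ 2 / (Q ^ 2 * z) - 2 * Real.pi * I * b / Q) := by
  have hqN : (q : ℂ) ≠ 0 := Nat.cast_ne_zero.2 (NeZero.ne q)
  have hg0 := gauss_ne_zero χ⁻¹ (inv_primitive χ hχ)
  apply mul_left_cancel₀ hg0
  obtain ⟨c, hc⟩ := hN
  -- `Q = q R`
  obtain ⟨R, hR⟩ : ∃ R : ℕ, R = N * q * c := ⟨_, rfl⟩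
  have hQR : Q = q * R := by rw [hc, hR]; ring
  have hqR : (q : ℤ) ∣ (R : ℤ) := ⟨N * c, by rw [hR]; push_cast; ring⟩
  have hNQ : N ∣ Q := ⟨q ^ 2 * c, by rw [hc]; ring⟩
  have hQ0 : (Q : ℂ) ≠ 0 := by exact_mod_cast (by omega : Q ≠ 0)
  have hQC : (Q : ℂ) = q * R := by rw [hQR]; push_cast; ring
  have hz1 : 0 < (z + 2 * Real.pi * I * a / Q : ℂ).re := by
    have := re_shift hz ((a : ℝ) / Q)
    convert this using 3
    push_cast
    ring
  have hz2 : 0 < (4 * Real.pi ^ 2 / (Q ^ 2 * z) - 2 * Real.pi * I * b / Q : ℂ).re := re_dual hQ hz b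
  rw [add_lxc hχ h hz1]
  have e1 : gaussSum χ⁻¹ (stdAddChar (N := q)) * ((omN ψ ((a : ℤ) : ZMod N) * χ⁻¹ ((a ^ 2 : ℤ) : ZMod q)) *
        (2 * Real.pi / (I * Q * z)) ^ k *
        Ph k (lxc f χ) (4 * Real.pi ^ 2 / (Q ^ 2 * z) - 2 * Real.pi * I * b / Q)) =
      (omN ψ ((a : ℤ) : ZMod N) * χ⁻¹ ((a ^ 2 : ℤ) : ZMod q)) * (2 * Real.pi / (I * Q * z)) ^ k *
      (gaussSum χ⁻¹ (stdAddChar (N := q)) *
        Ph k (lxc f χ) (4 * Real.pi ^ 2 / (Q ^ 2 * z) - 2 * Real.pi * I * b / Q)) := by ring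
  rw [e1, add_lxc hχ h hz2, Finset.mul_sum]
  -- reindex by `u ↦ u b²`
  have hab' : ((a : ℤ) : ZMod q) * ((b : ℤ) : ZMod q) = 1 := by
    have h1 : (q : ℤ) ∣ a * b - 1 := dvd_trans ⟨R, by rw [hQR]; push_cast; ring⟩ hab
    have h2 := (ZMod.intCast_zmod_eq_zero_iff_dvd (a * b - 1) q).2 h1
    push_cast at h2
    linear_combination h2
  let bu : (ZMod q)ˣ := ⟨((b : ℤ) : ZMod q), ((a : ℤ) : ZMod q), by rw [mul_comm]; exact hab', hab'⟩
  rw [← Equiv.sum_comp (Units.mulRight (bu ^ 2))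
    (fun v : ZMod q => (omN ψ ((a : ℤ) : ZMod N) * χ⁻¹ ((a ^ 2 : ℤ) : ZMod q)) * (2 * Real.pi / (I * Q * z)) ^ k *
      (χ⁻¹ v * Ph k (lmc f) (4 * Real.pi ^ 2 / (Q ^ 2 * z) - 2 * Real.pi * I * b / Q -
        2 * Real.pi * I * (v.val : ℤ) / q)))]
  refine Finset.sum_congr rfl fun u _ => ?_
  have hbu : ((Units.mulRight (bu ^ 2)) u : ZMod q) = u * ((b : ℤ) : ZMod q) ^ 2 := by
    simp [bu]
  rw [hbu]
  -- the transformation of one term
  have hab2 : (Q : ℤ) ∣ (a - R * (u.val : ℤ)) * (b + R * (u.val : ℤ) * b ^ 2) - 1 := by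
    obtain ⟨c1, hc1⟩ := hab
    obtain ⟨c2, hc2⟩ := hqR
    have hQRz : (Q : ℤ) = q * R := by rw [hQR]; push_cast; ring
    refine ⟨c1 + R * (u.val : ℤ) * b * c1 - c2 * (u.val : ℤ) ^ 2 * b ^ 2, ?_⟩
    have h3 : (R : ℤ) * R = Q * c2 := by
      rw [hQRz]; nth_rewrite 1 [hc2]; ring
    linear_combination (1 + (R : ℤ) * (u.val : ℤ) * b) * hc1 - ((u.val : ℤ) ^ 2 * b ^ 2) * h3
  have hNR : ((a - R * (u.val : ℤ) : ℤ) : ZMod N) = ((a : ℤ) : ZMod N) := by
    have h5 : ((R : ℕ) : ZMod N) = 0 := (ZMod.natCast_eq_zero_iff R N).2 ⟨q * c, by rw [hR]; ring⟩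
    push_cast
    rw [h5]
    ring
  have h4 := cusp_lmc hf Q (a - R * (u.val : ℤ)) (b + R * (u.val : ℤ) * b ^ 2) hQ hNQ hab2 z hz
  have e5 : (z + 2 * Real.pi * I * a / Q - 2 * Real.pi * I * ((u.val : ℤ) : ℂ) / q : ℂ) =
      z + 2 * Real.pi * I * ((a - R * (u.val : ℤ) : ℤ) : ℂ) / Q := by
    rw [hQC]
    have hR0 : (R : ℂ) ≠ 0 := by
      intro h0; rw [hQC, h0, mul_zero] at hQ0; exact hQ0 rfl
    push_cast
    field_simp
    ring
  have e6 : (4 * Real.pi ^ 2 / (Q ^ 2 * z) - 2 * Real.pi * I * ((b + R * (u.val : ℤ) * b ^ 2 : ℤ) : ℂ) / Q : ℂ) =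
      4 * Real.pi ^ 2 / (Q ^ 2 * z) - 2 * Real.pi * I * b / Q - 2 * Real.pi * I * (((u.val : ℤ) * b ^ 2 : ℤ) : ℂ) / q := by
    have hR0 : (R : ℂ) ≠ 0 := by
      intro h0; rw [hQC, h0, mul_zero] at hQ0; exact hQ0 rfl
    have h7 : (2 * Real.pi * I * ((b + R * (u.val : ℤ) * b ^ 2 : ℤ) : ℂ) / Q : ℂ) =
        2 * Real.pi * I * b / Q + 2 * Real.pi * I * (((u.val : ℤ) * b ^ 2 : ℤ) : ℂ) / q := by
      rw [hQC]
      push_cast
      field_simp
    rw [h7]
    ring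
  rw [e5, h4, e6]
  rw [Ph_res (q := q) (lmc f) (4 * Real.pi ^ 2 / (Q ^ 2 * z) - 2 * Real.pi * I * b / Q) ((u.val : ℤ) * b ^ 2)
    (((u * ((b : ℤ) : ZMod q) ^ 2 : ZMod q)).val : ℤ) (by
      push_cast
      rw [ZMod.natCast_zmod_val, ZMod.natCast_zmod_val])]
  have e8 : χ⁻¹ ((a ^ 2 : ℤ) : ZMod q) * χ⁻¹ (u * ((b : ℤ) : ZMod q) ^ 2) = χ⁻¹ u := by
    rw [← map_mul]
    congr 1
    push_cast
    linear_combination (u * (((a : ℤ) : ZMod q) * ((b : ℤ) : ZMod q) + 1)) * hab'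
  rw [hNR, ← e8]
  ring

/-- functional equation of the twist -/
theorem fricke_lxc (hk : 1 ≤ k) (hf : W388.IsNewfC N k ψ f η) (hχ : χ.IsPrimitive) (hco : Nat.Coprime q N) :
    ∃ w : ℂ, ‖w‖ = 1 ∧ ∀ z : ℂ, 0 < z.re → Ph k (lxc f χ) (4 * Real.pi ^ 2 / ((N * q ^ 2 : ℕ) * z)) =
      w * ((Real.sqrt (N * q ^ 2 : ℕ) : ℝ) * z / (2 * Real.pi)) ^ k * Ph k (fun n => conj (lxc f χ n)) z := by
  obtain ⟨w, hw, hfe⟩ := t_twistC N k (by exact_mod_cast hk) ψ f η hf q χ hχ hco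
  refine ⟨w, hw, ?_⟩
  have hP : PG (aa k (lmc f)) := by
    have hF := frm_newfC hk hf
    exact pg_aa hF
  have hP1 : PG (aa k (lxc f χ)) := pg_lxc hP
  have hP2 : PG (aa k (fun n => conj (lxc f χ n))) := by
    refine hP1.mono fun n _ => ?_
    unfold aa
    rw [norm_mul, norm_mul, Complex.norm_conj]
  have hN0 : (0 : ℝ) < N := by exact_mod_cast Nat.pos_of_ne_zero (NeZero.ne N)
  have hq0 : (0 : ℝ) < q := by exact_mod_cast Nat.pos_of_ne_zero (NeZero.ne q)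
  have hsN : 0 < Real.sqrt N := Real.sqrt_pos.2 hN0
  have hpi0 := Real.pi_pos
  have hpi : (Real.pi : ℂ) ≠ 0 := by exact_mod_cast Real.pi_ne_zero
  have hNC : (N : ℂ) ≠ 0 := by exact_mod_cast NeZero.ne N
  have hqC : (q : ℂ) ≠ 0 := by exact_mod_cast NeZero.ne q
  have hsq : Real.sqrt ((N * q ^ 2 : ℕ) : ℝ) = Real.sqrt N * q := by
    push_cast
    rw [Real.sqrt_mul hN0.le, Real.sqrt_sq hq0.le]
  -- the identity on the real axis
  have hreal : ∀ x : ℝ, 0 < x → Ph k (lxc f χ) (4 * Real.pi ^ 2 / ((N * q ^ 2 : ℕ) * (x : ℂ))) =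
      w * ((Real.sqrt (N * q ^ 2 : ℕ) : ℝ) * (x : ℂ) / (2 * Real.pi)) ^ k * Ph k (fun n => conj (lxc f χ n)) x := by
    intro x hx
    obtain ⟨t, ht⟩ : ∃ t : ℝ, t = Real.sqrt N * q * x / (2 * Real.pi) := ⟨_, rfl⟩
    have ht0 : 0 < t := by rw [ht]; positivity
    have h1 := hfe t ht0
    have hss : Real.sqrt N * Real.sqrt N = N := Real.mul_self_sqrt hN0.le
    have e1 : Ph k (lxc f χ) (4 * Real.pi ^ 2 / ((N * q ^ 2 : ℕ) * (x : ℂ))) =
        ∑' n : ℕ, χ (n : ZMod q) * (qExpansion 1 f).coeff n *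
          (Real.exp (-(2 * Real.pi * n / (Real.sqrt N * q)) / t) : ℂ) := by
      unfold Ph
      refine tsum_congr fun n => ?_
      have e2 : aa k (lxc f χ) n = χ (n : ZMod q) * (qExpansion 1 f).coeff n := by
        rw [← aa_lmc f]
        unfold aa lxc
        ring
      rw [e2, Complex.ofReal_exp]
      congr 2
      have e3 : (4 * Real.pi ^ 2 / ((N * q ^ 2 : ℕ) * (x : ℂ)) : ℂ) =
          ((2 * Real.pi / (Real.sqrt N * q) / t : ℝ) : ℂ) := by
        rw [ht]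
        have e4 : (2 * Real.pi / (Real.sqrt N * q) / (Real.sqrt N * q * x / (2 * Real.pi)) : ℝ) =
            4 * Real.pi ^ 2 / (N * q ^ 2 * x) := by
          have e9 : (N : ℝ) * q ^ 2 * x = Real.sqrt N * q * (Real.sqrt N * q * x) := by
            linear_combination (-(q : ℝ) ^ 2 * x) * hss
          rw [e9]
          field_simp
          norm_num
        rw [e4]
        push_cast
        ring
      rw [e3]
      push_cast
      ring
    have e5 : Ph k (fun n => conj (lxc f χ n)) x =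
        ∑' n : ℕ, (starRingEnd ℂ) (χ (n : ZMod q) * (qExpansion 1 f).coeff n) *
          (Real.exp (-(2 * Real.pi * n / (Real.sqrt N * q)) * t) : ℂ) := by
      unfold Ph
      refine tsum_congr fun n => ?_
      have e2 : aa k (fun n => conj (lxc f χ n)) n = conj (χ (n : ZMod q) * (qExpansion 1 f).coeff n) := by
        rw [← aa_lmc f]
        unfold aa lxc
        show conj (χ (n : ZMod q) * lmc f n) * _ = _
        rw [map_mul, map_mul, map_mul, Complex.conj_ofReal]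
        ring
      rw [e2, Complex.ofReal_exp]
      congr 2
      have e3 : (2 * Real.pi * n / (Real.sqrt N * q)) * t = n * x := by
        rw [ht]
        field_simp
      have e6 : ((-(2 * Real.pi * n / (Real.sqrt N * q)) * t : ℝ) : ℂ) = -((n : ℂ) * x) := by
        rw [neg_mul, e3]
        push_cast
        ring
      rw [e6]
    rw [e1, h1, e5, hsq, zpow_natCast]
    congr 3
    rw [ht]
    push_cast
    ring
  -- analytic continuation
  obtain ⟨U, hU⟩ : ∃ U : Set ℂ, U = {z : ℂ | 0 < z.re} := ⟨_, rfl⟩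
  have hUo : IsOpen U := by rw [hU]; exact isOpen_lt continuous_const Complex.continuous_re
  have hUc : IsPreconnected U := by
    rw [hU]; exact (convex_halfSpace_re_gt 0).isPreconnected
  have hdual : ∀ z : ℂ, 0 < z.re → 0 < (4 * Real.pi ^ 2 / ((N * q ^ 2 : ℕ) * z) : ℂ).re := by
    intro z hz
    have hz0 : z ≠ 0 := by intro h; rw [h] at hz; simp at hz
    have h1 : (4 * Real.pi ^ 2 / ((N * q ^ 2 : ℕ) * z) : ℂ) = ((4 * Real.pi ^ 2 / (N * q ^ 2) : ℝ) : ℂ) * z⁻¹ := by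
      push_cast
      field_simp
    rw [h1, Complex.re_ofReal_mul, Complex.inv_re]
    have := Complex.normSq_pos.2 hz0
    positivity
  have hA1 : DifferentiableOn ℂ (fun z : ℂ => Ph k (lxc f χ) (4 * Real.pi ^ 2 / ((N * q ^ 2 : ℕ) * z))) U := by
    intro z hz
    rw [hU] at hz
    have hz' : 0 < z.re := hz
    have hz0 : z ≠ 0 := by intro h; rw [h] at hz'; simp at hz'
    have hc0 : (((N * q ^ 2 : ℕ) : ℂ) * z) ≠ 0 := by
      refine mul_ne_zero ?_ hz0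
      push_cast
      exact mul_ne_zero hNC (pow_ne_zero _ hqC)
    have h1 : DifferentiableAt ℂ (fun z : ℂ => (4 * Real.pi ^ 2 / ((N * q ^ 2 : ℕ) * z) : ℂ)) z := by
      refine DifferentiableAt.div (by fun_prop) (by fun_prop) hc0
    exact (DifferentiableAt.comp z (f := fun z : ℂ => (4 * Real.pi ^ 2 / ((N * q ^ 2 : ℕ) * z) : ℂ))
      (hP1.diff (hdual z hz')) h1).differentiableWithinAt
  have hA2 : DifferentiableOn ℂ (fun z : ℂ => w * ((Real.sqrt (N * q ^ 2 : ℕ) : ℝ) * z / (2 * Real.pi)) ^ k *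
      Ph k (fun n => conj (lxc f χ n)) z) U := by
    intro z hz
    rw [hU] at hz
    have hz' : 0 < z.re := hz
    have h1 : DifferentiableAt ℂ (Ph k (fun n => conj (lxc f χ n))) z := hP2.diff hz'
    have h2 : DifferentiableAt ℂ (fun z : ℂ => w * ((Real.sqrt (N * q ^ 2 : ℕ) : ℝ) * z / (2 * Real.pi)) ^ k) z := by
      fun_prop
    exact (h2.mul h1).differentiableWithinAt
  have h1U : (1 : ℂ) ∈ U := by rw [hU]; show (0 : ℝ) < (1 : ℂ).re; simp
  have hfreq : ∃ᶠ z in 𝓝[≠] (1 : ℂ), Ph k (lxc f χ) (4 * Real.pi ^ 2 / ((N * q ^ 2 : ℕ) * z)) =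
      w * ((Real.sqrt (N * q ^ 2 : ℕ) : ℝ) * z / (2 * Real.pi)) ^ k * Ph k (fun n => conj (lxc f χ n)) z := by
    have ht : Tendsto (fun x : ℝ => (x : ℂ)) (𝓝[>] 1) (𝓝[≠] (1 : ℂ)) := by
      refine tendsto_nhdsWithin_iff.2 ⟨?_, ?_⟩
      · have : Tendsto (fun x : ℝ => (x : ℂ)) (𝓝 1) (𝓝 ((1 : ℝ) : ℂ)) := Complex.continuous_ofReal.tendsto 1
        rw [Complex.ofReal_one] at this
        exact this.mono_left nhdsWithin_le_nhds
      · filter_upwards [self_mem_nhdsWithin] with x hx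
        have hx1 : (1 : ℝ) < x := hx
        intro h
        have h2 : (x : ℂ) = 1 := h
        have : x = 1 := by exact_mod_cast h2
        linarith
    refine ht.frequently ?_
    refine Filter.Eventually.frequently ?_
    filter_upwards [self_mem_nhdsWithin] with x hx
    have hx1 : (1 : ℝ) < x := hx
    exact hreal x (by linarith)
  have hE := AnalyticOnNhd.eqOn_of_preconnected_of_frequently_eq (hA1.analyticOnNhd hUo) (hA2.analyticOnNhd hUo)
    hUc h1U hfreq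
  intro z hz
  exact hE (by rw [hU]; exact hz)

/-- **Twists of newforms are forms.** -/
theorem frm_twc (hk : 1 ≤ k) (hf : W388.IsNewfC N k ψ f η) (hχ : χ.IsPrimitive) (hco : Nat.Coprime q N) :
    Frm k (N * q ^ 2) (psxc ψ χ) (lxc f χ) := by
  have hF := frm_newfC hk hf
  have hP : PG (aa k (lmc f)) := pg_aa hF
  have hle : ∀ n : ℕ, ‖lxc f χ n‖ ≤ ‖lmc f n‖ := by
    intro n
    unfold lxc
    rw [norm_mul]
    have h1 := χ.norm_le_one (n : ZMod q)
    have h2 := norm_nonneg (lmc f n)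
    nlinarith
  have hq1 : 1 ≤ q := Nat.pos_of_ne_zero (NeZero.ne q)
  refine ⟨hk, ?_, ?_, ?_, ?_, ?_, ?_, ?_, ?_, ?_, ?_, ?_⟩
  · have := hF.N_pos
    have h2 : 1 ≤ q ^ 2 := Nat.one_le_pow _ _ hq1
    exact Nat.mul_pos this h2
  · unfold lxc
    rw [hF.zero, mul_zero]
  · unfold lxc
    rw [hF.one, Nat.cast_one, map_one, mul_one]
  · intro m n hmn
    unfold lxc
    rw [hF.mul m n hmn]
    push_cast
    rw [map_mul]
    ring
  · intro p j hp
    unfold lxc psxc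
    rw [show lmc f (p ^ (j + 2)) = lmc f p * lmc f (p ^ (j + 1)) - ψ ((p : ℕ) : ZMod N) * lmc f (p ^ j) from
      hF.pow p j hp]
    push_cast
    rw [map_pow, map_pow, map_pow]
    ring
  · intro p
    unfold psxc
    rw [norm_mul, norm_pow]
    have h1 := χ.norm_le_one (p : ZMod q)
    have h2 : ‖ψ ((p : ℕ) : ZMod N)‖ ≤ 1 := ψ.norm_le_one _
    have h3 := norm_nonneg (χ (p : ZMod q))
    have h4 : ‖χ (p : ZMod q)‖ ^ 2 ≤ 1 := by nlinarith
    have h5 : 0 ≤ ‖χ (p : ZMod q)‖ ^ 2 := by positivity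
    nlinarith [norm_nonneg (ψ ((p : ℕ) : ZMod N))]
  · obtain ⟨th, C, h0, h1, h2⟩ := hF.ram
    exact ⟨th, C, h0, h1, fun n hn => (hle n).trans (h2 n hn)⟩
  · obtain ⟨C, hC⟩ := hF.rs
    refine ⟨C, fun x hx => le_trans (Finset.sum_le_sum fun p hp => ?_) (hC x hx)⟩
    have hp1 := (Finset.mem_Icc.1 (Finset.mem_filter.1 hp).1).1
    have hlog : 0 ≤ Real.log p := Real.log_nonneg (by exact_mod_cast hp1)
    have := hle p
    gcongr
  · -- the bound
    obtain ⟨C, hC⟩ := hF.bd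
    have hg0 := gauss_ne_zero χ⁻¹ (inv_primitive χ hχ)
    have hgn : 0 < ‖gaussSum χ⁻¹ (stdAddChar (N := q))‖ := norm_pos_iff.2 hg0
    refine ⟨q * C / ‖gaussSum χ⁻¹ (stdAddChar (N := q))‖, fun z hz => ?_⟩
    have h1 := congrArg norm (add_lxc hχ hP hz)
    rw [norm_mul] at h1
    have h2 : ‖∑ u : ZMod q, χ⁻¹ u * Ph k (lmc f) (z - 2 * Real.pi * I * (u.val : ℤ) / q)‖ ≤
        q * (C * z.re ^ (-((k : ℝ) / 2))) := by
      refine (norm_sum_le _ _).trans ?_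
      have h3 : ∀ u ∈ (Finset.univ : Finset (ZMod q)),
          ‖χ⁻¹ u * Ph k (lmc f) (z - 2 * Real.pi * I * (u.val : ℤ) / q)‖ ≤ C * z.re ^ (-((k : ℝ) / 2)) := by
        intro u _
        have hre : (z - 2 * Real.pi * I * (u.val : ℤ) / q : ℂ).re = z.re := by
          have e : (2 * Real.pi * I * ((u.val : ℤ) : ℂ) / q : ℂ) = ((2 * Real.pi * (u.val : ℤ) / q : ℝ) : ℂ) * I := by
            push_cast; ring
          rw [e, Complex.sub_re, Complex.re_ofReal_mul, Complex.I_re, mul_zero, sub_zero]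
        have h4 := hC (z - 2 * Real.pi * I * (u.val : ℤ) / q) (by rw [hre]; exact hz)
        rw [hre] at h4
        rw [norm_mul]
        have h5 := (χ⁻¹).norm_le_one u
        have h6 := norm_nonneg (Ph k (lmc f) (z - 2 * Real.pi * I * (u.val : ℤ) / q))
        nlinarith
      refine (Finset.sum_le_card_nsmul _ _ _ h3).trans ?_
      rw [Finset.card_univ, ZMod.card, nsmul_eq_mul]
    rw [div_mul_eq_mul_div, le_div_iff₀ hgn, mul_comm]
    rw [h1]
    linarith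
  · refine ⟨fun a => omN ψ ((a : ℤ) : ZMod N) * χ⁻¹ ((a ^ 2 : ℤ) : ZMod q), ?_, fun Q a b hQ hN hab z hz => cusp_lxc hf hχ hP Q a b hQ hN hab z hz⟩
    intro a ha
    have h1 : IsCoprime a (q : ℤ) := by
      refine IsCoprime.of_isCoprime_of_dvd_right ha ⟨N * q, ?_⟩
      push_cast
      ring
    have h2 : IsUnit ((a ^ 2 : ℤ) : ZMod q) := by
      obtain ⟨x, y, hxy⟩ := h1
      have h3 : ((x : ℤ) : ZMod q) * ((a : ℤ) : ZMod q) = 1 := by
        have := congrArg (fun m : ℤ => (m : ZMod q)) hxy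
        simpa using this
      push_cast
      exact (IsUnit.of_mul_eq_one_right _ h3).pow 2
    have h4 : IsUnit ((a : ℤ) : ZMod N) := by
      obtain ⟨x, y, hxy⟩ := IsCoprime.of_isCoprime_of_dvd_right ha
        (show (N : ℤ) ∣ ((N * q ^ 2 : ℕ) : ℤ) from ⟨q ^ 2, by push_cast; ring⟩)
      have h3 : ((x : ℤ) : ZMod N) * ((a : ℤ) : ZMod N) = 1 := by
        have := congrArg (fun m : ℤ => (m : ZMod N)) hxy
        simpa using this
      exact IsUnit.of_mul_eq_one_right _ h3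
    obtain ⟨v, hv⟩ := h2
    obtain ⟨v2, hv2⟩ := h4
    show ‖ψ⁻¹ ((a : ℤ) : ZMod N) * χ⁻¹ ((a ^ 2 : ℤ) : ZMod q)‖ = 1
    rw [← hv, ← hv2, norm_mul, (χ⁻¹).unit_norm_eq_one v, (ψ⁻¹).unit_norm_eq_one v2, mul_one]
  · exact fricke_lxc hk hf hχ hco

end Pool.Agent.R838.NB
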